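import Pool.Agent.H82.NTB.Stmts

/-!
Board `ntb`, row XANW.
-/

set_option autoImplicit false

namespace Pool.NTB

open Pool.NET

theorem xanw_key (S c c' : ℤ) (hS : 0 < S) :
    (c' < c ∧ S * c' ≤ S * c - S) ∨ c' = c ∨ (c < c' ∧ S * c + S ≤ S * c') := by
  rcases lt_trichotomy c' c with h | h | h
  · left
    refine ⟨h, ?_⟩
    nlinarith
  · right; left; exact h
  · right; right
    refine ⟨h, ?_⟩
    nlinarith

theorem xanw_thm : XSA Ke.NW := by
  intro p e g N h u hp hN hU v w hv hw h1 h2 h3 h4
  obtain ⟨q0, gq, gW, We, eM, MS⟩ := hp
  obtain ⟨⟨c', r'⟩, k'⟩ := w
  obtain ⟨c, r⟩ := v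
  have hS : 0 < p.S := by omega
  have hc := xanw_key p.S c c' hS
  have hr := xanw_key p.S r r' hS
  have hr1 : p.S * (r' + 1) = p.S * r' + p.S := by ring
  have hr2 : p.S * (r' - 1) = p.S * r' - p.S := by ring
  by_cases hh : h (c - 1, r)
  · cases k' <;> simp only [lo, hi, nx2, if_pos hh, fx, fy, jl, jh, pv2] at h1 h2 h3 h4
    · -- NW
      left
      by_cases hu : u (c', r')
      · simp only [if_pos hu] at h4
        rcases hc with hc | hc | hc <;> rcases hr with hr | hr | hr <;>
          first | (subst hc; subst hr; rfl) | (exfalso; omega)
      · simp only [if_neg hu] at h4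
        rcases hc with hc | hc | hc <;> rcases hr with hr | hr | hr <;>
          first | (subst hc; subst hr; rfl) | (exfalso; omega)
    · exfalso; rcases hc with hc | hc | hc <;> first | omega | (subst hc; omega)
    · exfalso; rcases hc with hc | hc | hc <;> first | omega | (subst hc; omega)
    · -- L
      rcases hc with hc | hc | hc <;> rcases hr with hr | hr | hr <;>
        first | (subst hc; subst hr; exact absurd hh hw.2) | (exfalso; omega)
    · exfalso; rcases hc with hc | hc | hc <;> first | omega | (subst hc; omega)
    · exfalso; rcases hc with hc | hc | hc <;> rcases hr with hr | hr | hr <;>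
        first | omega | (subst hc; subst hr; omega)
    · exfalso; rcases hc with hc | hc | hc <;> first | omega | (subst hc; omega)
    · exfalso; rcases hc with hc | hc | hc <;> first | omega | (subst hc; omega)
    · exfalso; rcases hc with hc | hc | hc <;> rcases hr with hr | hr | hr <;>
        first | omega | (subst hc; subst hr; omega)
    · -- J4
      right
      simp only [nx2, if_pos hh]
      rcases hc with hc | hc | hc <;> rcases hr with hr | hr | hr <;>
        first | (subst hc; subst hr; rfl) | (exfalso; omega)
  · cases k' <;> simp only [lo, hi, nx2, if_neg hh, fx, fy, jl, jh, pv2] at h1 h2 h3 h4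
    · -- NW
      left
      by_cases hu : u (c', r')
      · simp only [if_pos hu] at h4
        rcases hc with hc | hc | hc <;> rcases hr with hr | hr | hr <;>
          first | (subst hc; subst hr; rfl) | (exfalso; omega)
      · simp only [if_neg hu] at h4
        rcases hc with hc | hc | hc <;> rcases hr with hr | hr | hr <;>
          first | (subst hc; subst hr; rfl) | (exfalso; omega)
    · exfalso; rcases hc with hc | hc | hc <;> first | omega | (subst hc; omega)
    · exfalso; rcases hc with hc | hc | hc <;> first | omega | (subst hc; omega)
    · -- L
      right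
      simp only [nx2, if_neg hh]
      rcases hc with hc | hc | hc <;> rcases hr with hr | hr | hr <;>
        first | (subst hc; subst hr; rfl) | (exfalso; omega)
    · exfalso; rcases hc with hc | hc | hc <;> first | omega | (subst hc; omega)
    · exfalso; rcases hc with hc | hc | hc <;> rcases hr with hr | hr | hr <;>
        first | omega | (subst hc; subst hr; omega)
    · exfalso; rcases hc with hc | hc | hc <;> first | omega | (subst hc; omega)
    · exfalso; rcases hc with hc | hc | hc <;> first | omega | (subst hc; omega)
    · exfalso; rcases hc with hc | hc | hc <;> rcases hr with hr | hr | hr <;>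
        first | omega | (subst hc; subst hr; omega)
    · -- J4
      exfalso; rcases hc with hc | hc | hc <;> first | omega | (subst hc; omega)

end Pool.NTB
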